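import Mathlib
import Pool.Agent.Q102.DistTable

/-!
# A median graph with a diametral pair in no triametral triple (MP_371ff7_co)

The graph is induced by the integer points `(x, y)` with `x, y ≥ 0`, `|x - y| ≤ 2` and
`x + y ≤ 4`; two points are adjacent when their `ℓ¹` distance is one.
The vertices `0, …, 10` are the points
`(0,0), (0,1), (0,2), (1,0), (1,1), (1,2), (1,3), (2,0), (2,1), (2,2), (3,1)`.
-/

set_option autoImplicit false

open SimpleGraph

namespace Pool.Agent.Results.MP_371ff7_co.GridHexagon

section Defs

variable {V : Type*} (G : SimpleGraph V)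

/-- The interval between `u` and `v`: the vertices lying on a shortest `u`-`v` path. -/
def interval (u v : V) : Set V := {x | G.dist u x + G.dist x v = G.dist u v}

/-- Median graphs: connected, and any three vertices have exactly one median. -/
def IsMedian : Prop :=
  G.Connected ∧ ∀ u v w, ∃! x, x ∈ interval G u v ∩ interval G u w ∩ interval G v w

/-- `d(u,v,w) = d(u,v) + d(u,w) + d(v,w)`. -/
noncomputable def triDist (u v w : V) : ℕ := G.dist u v + G.dist u w + G.dist v w

/-- The triple `u, v, w` is triametral: `d(u,v,w)` is the triameter. -/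
def IsTriametral (u v w : V) : Prop := ∀ x y z, triDist G x y z ≤ triDist G u v w

/-- The pair `u, v` is diametral: `d(u,v)` is the diameter. -/
def IsDiametral (u v : V) : Prop := ∀ x y, G.dist x y ≤ G.dist u v

end Defs

/-- First coordinate. -/
def cx : Fin 11 → ℤ := ![0, 0, 0, 1, 1, 1, 1, 2, 2, 2, 3]

/-- Second coordinate. -/
def cy : Fin 11 → ℤ := ![0, 1, 2, 0, 1, 2, 3, 0, 1, 2, 1]

/-- The `ℓ¹` distance. -/
def D (u v : Fin 11) : ℕ := (cx u - cx v).natAbs + (cy u - cy v).natAbs

/-- The subgraph of the grid induced by the eleven points. -/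
def gr : SimpleGraph (Fin 11) where
  Adj u v := D u v = 1
  symm := ⟨by decide⟩
  loopless := ⟨by decide⟩

instance : DecidableRel gr.Adj := fun u v => inferInstanceAs (Decidable (D u v = 1))

theorem h0 : ∀ u, D u u = 0 := by decide

theorem hstep : ∀ u v, u ≠ v → ∃ w, gr.Adj u w ∧ D w v + 1 = D u v := by decide

theorem hadj : ∀ u w v, gr.Adj u w → D u v ≤ D w v + 1 := by decide

theorem dist_eq (u v : Fin 11) : gr.dist u v = D u v :=
  Pool.Agent.Q102.DistTable.dist_eq h0 hstep hadj u v

/-- There is a median graph with a diametral pair `x, y` such that no triple `x, y, z` is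
triametral. -/
theorem result : ∃ G : SimpleGraph (Fin 11), IsMedian G ∧ ∃ x y, IsDiametral G x y ∧
    ∀ z, ¬ IsTriametral G x y z := by
  refine ⟨gr, ⟨Pool.Agent.Q102.DistTable.connected h0 hstep, ?_⟩, 2, 7, ?_, ?_⟩
  · simp only [interval, dist_eq, ExistsUnique, Set.mem_inter_iff, Set.mem_ofPred_eq]
    decide
  · simp only [IsDiametral, dist_eq]
    decide
  · simp only [IsTriametral, triDist, dist_eq]
    intro z h
    have h1 := h 0 6 10
    revert h1
    revert z
    decide

end Pool.Agent.Results.MP_371ff7_co.GridHexagon
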